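import Mathlib
import Pool.Agent.H50.Vreg1

namespace Pool.Agent.Results.MP_346585_al.Serre

open Finset Pool.Agent.H50.Vreg

variable {n : ℕ} (k : Type) [Field k]

/-- The simplicial coboundary. -/
def cob {k : Type} [Field k] (a : Finset (Fin n) → k) (τ : Finset (Fin n)) : k :=
  ∑ j ∈ τ, (-1) ^ (τ.filter (· < j)).card * a (τ.erase j)

/-- The reduced cohomology of `Γ` over `k` in dimension `p - 1` (faces with `p` vertices)
vanishes: every cocycle is a coboundary. -/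
def CohZero (Γ : Set (Finset (Fin n))) (p : ℕ) : Prop :=
  ∀ a : Finset (Fin n) → k, (∀ τ ∈ Γ, τ.card = p + 1 → cob a τ = 0) →
    ∃ b : Finset (Fin n) → k, ∀ σ ∈ Γ, σ.card = p → cob b σ = a σ

/-- The link of `F`. -/
def lk (Δ : Set (Finset (Fin n))) (F : Finset (Fin n)) : Set (Finset (Fin n)) :=
  {G | Disjoint G F ∧ G ∪ F ∈ Δ}

/-- Serre's condition in the form of Terai: for every face `F` the reduced cohomology of the link
vanishes in every dimension `p - 1 < min (l - 1) (dim lk F)`. -/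
def SerreCond (Δ : Set (Finset (Fin n))) (l : ℕ) : Prop :=
  ∀ F ∈ Δ, ∀ p, p < l → (∃ G ∈ lk Δ F, p < G.card) → CohZero k (lk Δ F) p

/-- An excellent set of faces. -/
def Excellent (Δ A : Set (Finset (Fin n))) : Prop :=
  A ⊆ Δ ∧ (∀ σ ∈ A, ∀ τ ∈ A, σ ≠ τ → σ ∪ τ ∉ Δ) ∧ ∀ F, Maximal (· ∈ Δ) F → ∃ σ ∈ A, σ ⊆ F

/-- The complex `Δ_A`. -/
def remove (Δ A : Set (Finset (Fin n))) : Set (Finset (Fin n)) := {G ∈ Δ | ¬ ∃ τ ∈ A, τ ⊆ G}

variable {k}

lemma cob_def (a : Finset (Fin n) → k) (τ : Finset (Fin n)) :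
    cob a τ = ∑ j ∈ τ, sg k τ j * a (τ.erase j) := rfl

lemma cob_cob (a : Finset (Fin n) → k) (τ : Finset (Fin n)) : cob (cob a) τ = 0 := by
  have e : ∀ a : Finset (Fin n) → k, cob a = kd (fun _ => 1) 0 a := fun a => by
    ext τ; simp [cob, kd]
  rw [e, e, kd_kd]

lemma cob_congr {a b : Finset (Fin n) → k} {τ : Finset (Fin n)}
    (h : ∀ j ∈ τ, a (τ.erase j) = b (τ.erase j)) : cob a τ = cob b τ :=
  sum_congr rfl fun j hj => by rw [h j hj]

def Sup (F : Finset (Fin n)) (a : Finset (Fin n) → k) : Prop := ∀ G, ¬ F ⊆ G → a G = 0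

lemma Sup.cob {F : Finset (Fin n)} {a : Finset (Fin n) → k} (h : Sup F a) : Sup F (cob a) :=
  fun _ hG => sum_eq_zero fun j _ => by
    rw [h _ fun h2 => hG (h2.trans (erase_subset _ _)), mul_zero]

def ep (k : Type) [Field k] (F G : Finset (Fin n)) : k := ∏ j ∈ G, sg k F j

lemma ep_sq (F G : Finset (Fin n)) : ep k F G * ep k F G = 1 := by
  rw [ep, ← prod_mul_distrib]; simp [sg_sq]

lemma twist {F : Finset (Fin n)} {a : Finset (Fin n) → k} (h : Sup F a) {τ : Finset (Fin n)}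
    (hd : Disjoint τ F) : cob (fun G => ep k F G * a (G ∪ F)) τ = ep k F τ * cob a (τ ∪ F) := by
  rw [cob_def, cob_def, sum_union hd, sum_eq_zero (s := F), add_zero, mul_sum]
  · refine sum_congr rfl fun j hj => ?_
    have e1 : sg k (τ ∪ F) j = sg k τ j * sg k F j := by
      rw [sg, sg, sg, filter_union, card_union_of_disjoint (disjoint_filter_filter hd), pow_add]
    have e2 : ep k F τ = sg k F j * ep k F (τ.erase j) := (mul_prod_erase τ _ hj).symm
    have e3 : (τ ∪ F).erase j = τ.erase j ∪ F := by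
      rw [erase_union_distrib, erase_eq_of_notMem (disjoint_left.1 hd hj)]
    rw [e1, e2, e3]
    linear_combination (-(sg k τ j * ep k F (τ.erase j) * a (τ.erase j ∪ F))) * sg_sq (R := k) F j
  · intro j hj
    rw [h _ fun h2 => notMem_erase j _ (h2 hj), mul_zero]

def Rel (k : Type) [Field k] (Δ : Set (Finset (Fin n))) (F : Finset (Fin n)) (m : ℕ) : Prop :=
  ∀ a : Finset (Fin n) → k, Sup F a → (∀ τ ∈ Δ, τ.card = m + 1 → cob a τ = 0) →
    ∃ b : Finset (Fin n) → k, Sup F b ∧ ∀ σ ∈ Δ, σ.card = m → cob b σ = a σ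

lemma untw (F : Finset (Fin n)) (b : Finset (Fin n) → k) : ∃ c : Finset (Fin n) → k, Sup F c ∧
    (∀ G, Disjoint G F → ep k F G * c (G ∪ F) = b G) ∧
    ∀ G, Disjoint G F → ep k F G * cob c (G ∪ F) = cob b G := by
  have h1 : ∀ G, Disjoint G F → ep k F G *
      (if F ⊆ G ∪ F then ep k F ((G ∪ F) \ F) * b ((G ∪ F) \ F) else 0) = b G := fun G hG => by
    rw [if_pos subset_union_right, union_sdiff_right, sdiff_eq_self_of_disjoint hG, ← mul_assoc,
      ep_sq, one_mul]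
  have hs : Sup F fun G => if F ⊆ G then ep k F (G \ F) * b (G \ F) else 0 := fun G h => if_neg h
  refine ⟨_, hs, h1, fun G hG => ?_⟩
  rw [← twist hs hG]
  exact cob_congr fun j _ => h1 _ (hG.mono_left (erase_subset _ _))

lemma rel_iff (Δ : Set (Finset (Fin n))) (F : Finset (Fin n)) (p : ℕ) :
    CohZero k (lk Δ F) p ↔ Rel k Δ F (p + F.card) := by
  have ne : ∀ G, ep k F G ≠ 0 := fun G => left_ne_zero_of_mul_eq_one (ep_sq F G)
  constructor
  · intro h a ha hc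
    obtain ⟨b, hb⟩ := h (fun G => ep k F G * a (G ∪ F)) fun τ hτ e => by
      rw [twist ha hτ.1, hc _ hτ.2 (by rw [card_union_of_disjoint hτ.1]; omega), mul_zero]
    obtain ⟨c, c1, -, c3⟩ := untw F b
    refine ⟨c, c1, fun σ hσ e => ?_⟩
    by_cases hF : F ⊆ σ
    · have e1 := sdiff_union_of_subset hF
      have := c3 (σ \ F) sdiff_disjoint
      rw [hb _ ⟨sdiff_disjoint, e1.symm ▸ hσ⟩ (by rw [card_sdiff_of_subset hF]; omega), e1] at this
      exact mul_left_cancel₀ (ne _) this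
    · rw [c1.cob σ hF, ha σ hF]
  · intro h a hc
    obtain ⟨c, c1, c2, c3⟩ := untw F a
    obtain ⟨b, b1, hb⟩ := h c c1 fun τ hτ e => by
      by_cases hF : F ⊆ τ
      · have e1 := sdiff_union_of_subset hF
        have := c3 (τ \ F) sdiff_disjoint
        rw [hc _ ⟨sdiff_disjoint, e1.symm ▸ hτ⟩ (by rw [card_sdiff_of_subset hF]; omega), e1] at this
        exact (mul_eq_zero.1 this).resolve_left (ne _)
      · exact c1.cob τ hF
    refine ⟨fun G => ep k F G * b (G ∪ F), fun σ hσ e => ?_⟩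
    rw [twist b1 hσ.1, hb _ hσ.2 (by rw [card_union_of_disjoint hσ.1]; omega), c2 _ hσ.1]

lemma ex_max {Δ : Set (Finset (Fin n))} {F : Finset (Fin n)} (h : F ∈ Δ) :
    ∃ Φ, F ⊆ Φ ∧ Maximal (· ∈ Δ) Φ := Finite.exists_le_maximal h

lemma cob_two {a : Finset (Fin n) → k} {τ : Finset (Fin n)} (h : τ.card = 2)
    (ha : ∀ x ∈ τ, ∀ y ∈ τ, a {x} = a {y}) : cob a τ = 0 := by
  obtain ⟨x, y, hxy, rfl⟩ := card_eq_two.1 h
  have e := ha x (by simp) y (by simp)
  have h1 := sg_anti (R := k) (τ := {x, y}) (i := x) (j := y) (by simp) (by simp) hxy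
  have e1 : ({x, y} : Finset (Fin n)).erase x = {y} := by ext z; simp; grind
  have e2 : ({x, y} : Finset (Fin n)).erase y = {x} := by ext z; simp; grind
  have e3 : ∀ z : Fin n, sg k {z} z = 1 := fun z => by simp [sg, filter_singleton]
  rw [e1, e2, e3, e3] at h1
  rw [cob_def, sum_pair hxy, e1, e2, e]
  linear_combination a {y} * h1

lemma pure {Δ : Set (Finset (Fin n))} (hΔ : IsLowerSet Δ) {l : ℕ} (hl : 1 < l)
    (hS : SerreCond k Δ l) (F : Finset (Fin n)) : ∀ Φ Ψ, Maximal (· ∈ Δ) Φ → Maximal (· ∈ Δ) Ψ →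
      F ⊆ Φ → F ⊆ Ψ → Φ.card = Ψ.card := by
  classical
  induction F using WellFoundedGT.induction with
  | _ F ih =>
  intro Φ Ψ hΦ hΨ h1 h2
  by_cases e1 : Φ ⊆ F
  · rw [subset_antisymm (e1.trans h2) (hΦ.2 hΨ.1 (e1.trans h2))]
  by_cases e2 : Ψ ⊆ F
  · rw [subset_antisymm (e2.trans h1) (hΨ.2 hΦ.1 (e2.trans h1))]
  obtain ⟨v, hv, hvF⟩ := not_subset.1 e1
  obtain ⟨w, hw, hwF⟩ := not_subset.1 e2
  have c1 := card_sdiff_add_card_eq_card h1
  have c2 := card_sdiff_add_card_eq_card h2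
  have m1 : Φ \ F ∈ lk Δ F := ⟨sdiff_disjoint, (sdiff_union_of_subset h1).symm ▸ hΦ.1⟩
  have m2 : Ψ \ F ∈ lk Δ F := ⟨sdiff_disjoint, (sdiff_union_of_subset h2).symm ▸ hΨ.1⟩
  by_cases hG : ∃ G ∈ lk Δ F, 1 < G.card
  swap
  · push Not at hG
    have := hG _ m1
    have := hG _ m2
    have := card_pos.2 ⟨v, mem_sdiff.2 ⟨hv, hvF⟩⟩
    have := card_pos.2 ⟨w, mem_sdiff.2 ⟨hw, hwF⟩⟩
    omega
  have ih' : ∀ x, x ∉ F → ∀ Θ Θ', Maximal (· ∈ Δ) Θ → Maximal (· ∈ Δ) Θ' → {x} ∪ F ⊆ Θ →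
      {x} ∪ F ⊆ Θ' → Θ.card = Θ'.card := fun x hx =>
    ih _ (lt_of_le_of_ne subset_union_right fun e => hx (e ▸ mem_union_left _ (mem_singleton_self x)))
  obtain ⟨b, hb⟩ := hS F (hΔ h1 hΦ.1) 1 hl hG
    (fun G => if ∃ Θ, Maximal (· ∈ Δ) Θ ∧ G ∪ F ⊆ Θ ∧ Θ.card = Φ.card then 1 else 0)
    fun τ hτ e => cob_two e fun x hx y hy => by
      obtain ⟨Θ, h3, h4⟩ := ex_max hτ.2
      have key : ∀ x ∈ τ, (∃ Θ', Maximal (· ∈ Δ) Θ' ∧ {x} ∪ F ⊆ Θ' ∧ Θ'.card = Φ.card) ↔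
          Θ.card = Φ.card := fun x hx => by
        have h5 : {x} ∪ F ⊆ Θ := (union_subset_union_left (singleton_subset_iff.2 hx)).trans h3
        exact ⟨fun ⟨Θ', a, b, c⟩ => (ih' x (disjoint_left.1 hτ.1 hx) _ _ h4 a h5 b).trans c,
          fun h => ⟨Θ, h4, h5, h⟩⟩
      simp only [key x hx, key y hy]
  have s1 : {v} ∪ F ⊆ Φ := union_subset (singleton_subset_iff.2 hv) h1
  have s2 : {w} ∪ F ⊆ Ψ := union_subset (singleton_subset_iff.2 hw) h2
  have b1 := hb {v} ⟨disjoint_singleton_left.2 hvF, hΔ s1 hΦ.1⟩ (card_singleton v)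
  have b2 := hb {w} ⟨disjoint_singleton_left.2 hwF, hΔ s2 hΨ.1⟩ (card_singleton w)
  have e3 : ∀ z : Fin n, cob b {z} = b ∅ := fun z => by simp [cob, filter_singleton]
  rw [e3, if_pos ⟨Φ, hΦ, s1, rfl⟩] at b1
  rw [e3, b1] at b2
  by_contra hne
  rw [if_neg fun ⟨Θ, x, y, z⟩ => hne (z.symm.trans (ih' w hwF _ _ x hΨ y s2))] at b2
  exact one_ne_zero b2

theorem result (k : Type) [Field k] (n : ℕ) (Δ A : Set (Finset (Fin n))) (hΔ : IsLowerSet Δ)
    (hA : Excellent Δ A) (l : ℕ) (hS : SerreCond k Δ l) : SerreCond k (remove Δ A) l := by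
  classical
  rintro F hF p hp ⟨H, hH, hpH⟩
  rcases Nat.eq_zero_or_pos p with rfl | hp0
  · intro a ha
    obtain ⟨v, hv⟩ := card_pos.1 hpH
    have s1 : {v} ∪ F ⊆ H ∪ F := union_subset_union_left (singleton_subset_iff.2 hv)
    have := ha {v} ⟨disjoint_singleton_left.2 (disjoint_left.1 hH.1 hv), hΔ s1 hH.2.1,
      fun ⟨τ, x, y⟩ => hH.2.2 ⟨τ, x, y.trans s1⟩⟩ (card_singleton v)
    refine ⟨0, fun σ _ e => ?_⟩
    rw [card_eq_zero.1 e]
    simpa [cob, filter_singleton, eq_comm] using this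
  have hcH := card_union_of_disjoint hH.1
  -- every facet has more than `p + #F + 1` vertices
  have big : ∀ Ψ, Maximal (· ∈ Δ) Ψ → p + F.card + 1 < Ψ.card := fun Ψ hΨ => by
    obtain ⟨Φ, h1, h2⟩ := ex_max hH.2.1
    obtain ⟨σ, h3, h4⟩ := hA.2.2 Φ h2
    have := card_lt_card (lt_of_le_of_ne h1 fun e => hH.2.2 ⟨σ, h3, e ▸ h4⟩ : H ∪ F ⊂ Φ)
    have := pure hΔ (by omega) hS ∅ Φ Ψ h2 hΨ (empty_subset _) (empty_subset _)
    omega
  have rel : ∀ G ∈ Δ, ∀ q < l, q + G.card ≤ p + F.card + 1 → Rel k Δ G (q + G.card) :=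
    fun G hG q hq h => by
      obtain ⟨Ψ, h1, h2⟩ := ex_max hG
      have := big Ψ h2
      have := card_sdiff_add_card_eq_card h1
      exact (rel_iff _ _ _).1 (hS G hG q hq ⟨Ψ \ G,
        ⟨sdiff_disjoint, (sdiff_union_of_subset h1).symm ▸ h2.1⟩, by omega⟩)
  rw [rel_iff]
  set m := p + F.card with hm
  intro a ha hc
  set a1 : Finset (Fin n) → k := fun G => if ∃ τ ∈ A, τ ⊆ G then 0 else a G with ha1
  have s1 : Sup F a1 := fun G h => by simp [ha1, ha G h]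
  have z1 : ∀ τ ∈ Δ, τ.card = m + 1 → (¬ ∃ σ ∈ A, σ ⊆ τ) → cob a1 τ = 0 := fun τ h1 h2 h3 => by
    rw [← hc τ ⟨h1, h3⟩ h2]
    exact cob_congr fun j _ => if_neg fun ⟨σ, x, y⟩ => h3 ⟨σ, x, y.trans (erase_subset _ _)⟩
  have uniq : ∀ τ ∈ Δ, ∀ σ ∈ A, ∀ σ' ∈ A, σ ⊆ τ → σ' ⊆ τ → σ = σ' := fun τ h σ x σ' y a b =>
    by_contra fun e => hA.2.1 σ x σ' y e (hΔ (union_subset a b) h)
  have hch : ∀ σ ∈ A, ∃ b : Finset (Fin n) → k, Sup (σ ∪ F) b ∧
      ∀ τ ∈ Δ, τ.card = m + 1 → σ ⊆ τ → cob b τ = cob a1 τ := fun σ hσ => by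
    by_cases h : σ ∪ F ∈ Δ ∧ (σ ∪ F).card ≤ m + 1
    · have lt := card_lt_card (lt_of_le_of_ne subset_union_right
        fun e => hF.2 ⟨σ, hσ, e ▸ subset_union_left⟩ : F ⊂ σ ∪ F)
      have r := rel _ h.1 (m + 1 - (σ ∪ F).card) (by omega) (by omega)
      rw [Nat.sub_add_cancel h.2] at r
      obtain ⟨b, b1, hb⟩ := r (fun τ => if σ ∪ F ⊆ τ then cob a1 τ else 0) (fun G h => if_neg h)
        fun ρ hρ e => by
          by_cases h2 : σ ⊆ ρ
          · refine (cob_congr fun j hj => ?_).trans (cob_cob a1 ρ)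
            split_ifs with h3
            · rfl
            by_cases h4 : F ⊆ ρ.erase j
            · refine (z1 _ (hΔ (erase_subset _ _) hρ) (by rw [card_erase_of_mem hj]; omega) ?_).symm
              rintro ⟨σ', x, y⟩
              exact h3 (union_subset (uniq ρ hρ σ hσ σ' x h2 (y.trans (erase_subset _ _)) ▸ y) h4)
            · exact (s1.cob _ h4).symm
          · exact sum_eq_zero fun j _ => by
              dsimp only
              rw [if_neg fun h3 => h2 ((subset_union_left.trans h3).trans (erase_subset _ _)),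
                mul_zero]
      refine ⟨b, b1, fun τ h1 h2 h3 => ?_⟩
      rw [hb τ h1 h2]
      split_ifs with h4
      · rfl
      · exact (s1.cob _ fun h5 => h4 (union_subset h3 h5)).symm
    · refine ⟨0, fun _ _ => rfl, fun τ h1 h2 h3 => ?_⟩
      rw [s1.cob τ fun h5 => h ⟨hΔ (union_subset h3 h5) h1,
        h2 ▸ card_le_card (union_subset h3 h5)⟩]
      simp [cob]
  choose! b b1 hb using hch
  obtain ⟨e, e1, he⟩ := rel F hF.1 p hp (by omega) (fun G => a1 G - ∑ σ ∈ A.toFinset, b σ G)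
    (fun G h => by
      dsimp only
      rw [s1 G h, sum_eq_zero, sub_zero]
      exact fun σ hσ => b1 σ (Set.mem_toFinset.1 hσ) G fun x => h (subset_union_right.trans x))
    fun τ h1 h2 => by
      have e2 : cob (fun G => a1 G - ∑ σ ∈ A.toFinset, b σ G) τ =
          cob a1 τ - ∑ σ ∈ A.toFinset, cob (b σ) τ := by
        simp only [cob_def, mul_sub, mul_sum, sum_sub_distrib]
        rw [sum_comm]
      have e3 : ∀ σ ∈ A, ¬ σ ⊆ τ → cob (b σ) τ = 0 := fun σ x y =>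
        (b1 σ x).cob τ fun z => y (subset_union_left.trans z)
      rw [e2]
      by_cases h3 : ∃ σ ∈ A, σ ⊆ τ
      · obtain ⟨σ, x, y⟩ := h3
        rw [sum_eq_single_of_mem σ (Set.mem_toFinset.2 x), hb σ x τ h1 h2 y, sub_self]
        exact fun σ' x' ne => e3 σ' (Set.mem_toFinset.1 x')
          fun y' => ne (uniq τ h1 σ' (Set.mem_toFinset.1 x') σ x y' y)
      · rw [z1 τ h1 h2 h3, sum_eq_zero, sub_zero]
        exact fun σ x => e3 σ (Set.mem_toFinset.1 x) fun y => h3 ⟨σ, Set.mem_toFinset.1 x, y⟩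
  refine ⟨e, e1, fun G hG h => ?_⟩
  rw [he G hG.1 h, sum_eq_zero, sub_zero]
  · exact if_neg hG.2
  · exact fun σ x => b1 σ (Set.mem_toFinset.1 x) G
      fun y => hG.2 ⟨σ, Set.mem_toFinset.1 x, subset_union_left.trans y⟩

end Pool.Agent.Results.MP_346585_al.Serre
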